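import Mathlib
import Pool.Agent.Helper29.QP.Defs
import Pool.Agent.Lead.RedInf

/-!
# QP-T2, part 1: finite prefix-closed sets in free groups
-/

open MonoidAlgebra Module

universe u

namespace Pool.Agent.Helper91.QP

open Pool.Agent.Helper29.QP

variable {X : Type}

open Classical in
/-- Multiplication by a generator lengthens or shortens the reduced word by one letter. -/
theorem toWord_mul_of (τ : FreeGroup X) (x : X) :
    (τ * FreeGroup.of x).toWord = τ.toWord ++ [(x, true)] ∨
    τ.toWord = (τ * FreeGroup.of x).toWord ++ [(x, false)] := by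
  rcases List.eq_nil_or_concat τ.toWord with h | ⟨L, s, h⟩
  · left
    have h1 : τ = 1 := FreeGroup.toWord_eq_nil_iff.1 h
    rw [h1]
    simp
  · rw [List.concat_eq_append] at h
    have hred : FreeGroup.IsReduced (L ++ [s]) := by
      rw [← h]; exact FreeGroup.isReduced_toWord
    have hτ : τ = FreeGroup.mk (L ++ [s]) := by rw [← h, FreeGroup.mk_toWord]
    by_cases hs : s = (x, false)
    · right
      have hL : FreeGroup.IsReduced L := Pool.Agent.Lead.isReduced_of_isInf hred ⟨[], [s], by simp⟩
      have h1 : τ * FreeGroup.of x = FreeGroup.mk L := by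
        rw [hτ, hs]
        have : FreeGroup.mk (L ++ [(x, false)]) = FreeGroup.mk L * (FreeGroup.of x)⁻¹ := by
          rw [← FreeGroup.mul_mk]; rfl
        rw [this, inv_mul_cancel_right]
      rw [h1, FreeGroup.toWord_mk, hL.reduce_eq, h, hs]
    · left
      have hred' : FreeGroup.IsReduced ((L ++ [s]) ++ [(x, true)]) := by
        refine FreeGroup.IsReduced.append_overlap (L₂ := [s]) (L₃ := [(x, true)]) hred ?_ (by simp)
        rw [FreeGroup.IsReduced]
        simp only [List.cons_append, List.nil_append, List.isChain_cons_cons, List.isChain_singleton,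
          and_true]
        intro h1
        by_contra h2
        apply hs
        ext
        · exact h1
        · simpa using h2
      have h1 : τ * FreeGroup.of x = FreeGroup.mk ((L ++ [s]) ++ [(x, true)]) := by
        rw [hτ]
        rw [← FreeGroup.mul_mk (L₂ := [(x, true)])]; rfl
      rw [h1, FreeGroup.toWord_mk, hred'.reduce_eq, h]

open Classical in
/-- The number of edges of a finite subset of the Cayley tree. -/
theorem sum_edges_le [Fintype X] (T : Finset (FreeGroup X)) (h1 : 1 ∈ T) :
    1 + ∑ x, (T.filter fun τ => τ * FreeGroup.of x ∈ T).card ≤ T.card := by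
  rw [← Finset.card_sigma]
  set S : Finset (Σ _ : X, FreeGroup X) :=
    Finset.univ.sigma fun x => T.filter fun τ => τ * FreeGroup.of x ∈ T with hS
  set φ : (Σ _ : X, FreeGroup X) → FreeGroup X := fun p =>
    if (p.2 * FreeGroup.of p.1).toWord = p.2.toWord ++ [(p.1, true)] then p.2 * FreeGroup.of p.1
    else p.2 with hφ
  have hlast : ∀ p, (φ p).toWord.getLast? = some (p.1, true) ∧ (φ p) = p.2 * FreeGroup.of p.1 ∨
      (φ p).toWord.getLast? = some (p.1, false) ∧ φ p = p.2 := by
    rintro ⟨x, τ⟩
    simp only [hφ]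
    rcases toWord_mul_of τ x with h | h
    · left
      rw [if_pos h]
      refine ⟨?_, rfl⟩
      rw [h]
      simp
    · right
      have hne : ¬ (τ * FreeGroup.of x).toWord = τ.toWord ++ [(x, true)] := by
        intro h'
        have e1 := congrArg List.length h
        have e2 := congrArg List.length h'
        simp at e1 e2
        omega
      rw [if_neg hne]
      refine ⟨?_, rfl⟩
      rw [h]
      simp
  have hinj : Function.Injective φ := by
    rintro p p' h
    have e : (φ p).toWord.getLast? = (φ p').toWord.getLast? := by rw [h]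
    rcases hlast p with ⟨h1, h2⟩ | ⟨h1, h2⟩ <;> rcases hlast p' with ⟨h3, h4⟩ | ⟨h3, h4⟩ <;>
      rw [h1, h3] at e
    · simp only [Option.some_inj, Prod.mk.injEq, and_true] at e
      obtain ⟨x, τ⟩ := p
      obtain ⟨x', τ'⟩ := p'
      simp only at e h2 h4
      subst e
      rw [h, h4] at h2
      rw [mul_right_cancel h2]
    · simp at e
    · simp at e
    · simp only [Option.some_inj, Prod.mk.injEq, and_true] at e
      obtain ⟨x, τ⟩ := p
      obtain ⟨x', τ'⟩ := p'
      simp only at e h2 h4
      subst e
      rw [h, h4] at h2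
      rw [h2]
  have hmaps : S.image φ ⊆ T.erase 1 := by
    intro g hg
    obtain ⟨p, hp, rfl⟩ := Finset.mem_image.1 hg
    rw [hS, Finset.mem_sigma, Finset.mem_filter] at hp
    obtain ⟨-, h2, h3⟩ := hp
    rw [Finset.mem_erase]
    rcases hlast p with ⟨h4, h5⟩ | ⟨h4, h5⟩
    · refine ⟨fun h => ?_, h5 ▸ h3⟩
      rw [h] at h4
      simp at h4
    · refine ⟨fun h => ?_, h5 ▸ h2⟩
      rw [h] at h4
      simp at h4
  have hc := Finset.card_le_card hmaps
  rw [Finset.card_image_of_injective _ hinj, Finset.card_erase_of_mem h1] at hc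
  have : 0 < T.card := Finset.card_pos.2 ⟨1, h1⟩
  omega

open Classical in
/-- A finite set is contained in a finite prefix-closed set. -/
theorem exists_PC (S : Finset (FreeGroup X)) : ∃ T : Finset (FreeGroup X), S ⊆ T ∧
    PC (T : Set (FreeGroup X)) := by
  refine ⟨S.biUnion fun g => (g.toWord.inits.map FreeGroup.mk).toFinset, ?_, ?_⟩
  · intro g hg
    rw [Finset.mem_biUnion]
    refine ⟨g, hg, ?_⟩
    rw [List.mem_toFinset, List.mem_map]
    exact ⟨g.toWord, by simp, FreeGroup.mk_toWord⟩
  · intro L hL hmem L' hL'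
    rw [Finset.mem_coe, Finset.mem_biUnion] at hmem ⊢
    obtain ⟨g, hg, h⟩ := hmem
    rw [List.mem_toFinset, List.mem_map] at h
    obtain ⟨L₁, h1, h2⟩ := h
    rw [List.mem_inits] at h1
    refine ⟨g, hg, ?_⟩
    rw [List.mem_toFinset, List.mem_map]
    have hL₁ : FreeGroup.IsReduced L₁ := Pool.Agent.Lead.isReduced_of_isInf FreeGroup.isReduced_toWord h1.isInfix
    have h3 : L₁ = L := by
      have := congrArg FreeGroup.toWord h2
      rwa [FreeGroup.toWord_mk, FreeGroup.toWord_mk, hL₁.reduce_eq, hL.reduce_eq] at this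
    refine ⟨L', ?_, rfl⟩
    rw [List.mem_inits]
    exact hL'.trans (h3 ▸ h1)

/-- Induction on a prefix-closed set. -/
theorem PC.induction {T : Set (FreeGroup X)} (hT : PC T) {P : FreeGroup X → Prop} (h1 : P 1)
    (hpos : ∀ (τ : FreeGroup X) (x : X), τ ∈ T → τ * FreeGroup.of x ∈ T → P τ →
      P (τ * FreeGroup.of x))
    (hneg : ∀ (τ : FreeGroup X) (x : X), τ ∈ T → τ * FreeGroup.of x ∈ T →
      P (τ * FreeGroup.of x) → P τ) (τ : FreeGroup X) (hτ : τ ∈ T) : P τ := by
  classical
  have key : ∀ L : List (X × Bool), FreeGroup.IsReduced L → FreeGroup.mk L ∈ T →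
      P (FreeGroup.mk L) := by
    intro L
    induction L using List.reverseRecOn with
    | nil => intro _ _; exact h1
    | append_singleton L s ih =>
      intro hred hmem
      have hred' : FreeGroup.IsReduced L := Pool.Agent.Lead.isReduced_of_isInf hred ⟨[], [s], by simp⟩
      have hmem' : FreeGroup.mk L ∈ T := hT _ hred hmem L (List.prefix_append L [s])
      have ih' := ih hred' hmem'
      obtain ⟨x, b⟩ := s
      cases b with
      | true =>
        have e : FreeGroup.mk (L ++ [(x, true)]) = FreeGroup.mk L * FreeGroup.of x := by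
          rw [← FreeGroup.mul_mk]; rfl
        rw [e] at hmem ⊢
        exact hpos _ x hmem' hmem ih'
      | false =>
        have e : FreeGroup.mk (L ++ [(x, false)]) = FreeGroup.mk L * (FreeGroup.of x)⁻¹ := by
          rw [← FreeGroup.mul_mk]; rfl
        have e' : FreeGroup.mk (L ++ [(x, false)]) * FreeGroup.of x = FreeGroup.mk L := by
          rw [e, inv_mul_cancel_right]
        refine hneg _ x hmem (by rw [e']; exact hmem') (by rw [e']; exact ih')
  have h2 := key τ.toWord FreeGroup.isReduced_toWord (by rw [FreeGroup.mk_toWord]; exact hτ)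
  rwa [FreeGroup.mk_toWord] at h2

end Pool.Agent.Helper91.QP
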