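import Mathlib
import Pool.Agent.Helper29.QP.Defs
import Pool.Agent.Helper79.QP.LemE
import Pool.Agent.Helper91.QP.TreeCount

/-!
# QP-T2, part 2: shift-closed subspaces
-/

open MonoidAlgebra Module

universe u

namespace Pool.Agent.Helper91.QP

open Pool.Agent.Helper29.QP
open Pool.Agent.Helper79.QP (suppSub lemE)

section general

variable {K : Type*} [Field K] {V : Type*} [AddCommGroup V] [Module K V]

theorem finrank_iSup_le {ι : Type*} [Fintype ι] (p : ι → Submodule K V)
    [∀ i, FiniteDimensional K (p i)] :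
    finrank K (⨆ i, p i : Submodule K V) ≤ ∑ i, finrank K (p i) := by
  classical
  have key : ∀ s : Finset ι, FiniteDimensional K (s.sup p : Submodule K V) ∧
      finrank K (s.sup p : Submodule K V) ≤ ∑ i ∈ s, finrank K (p i) := by
    intro s
    induction s using Finset.induction_on with
    | empty =>
      have h0 : (∅ : Finset ι).sup p = ⊥ := Finset.sup_empty
      rw [h0]
      exact ⟨inferInstance, by simp⟩
    | insert a s ha ih =>
      obtain ⟨h1, h2⟩ := ih
      rw [Finset.sup_insert, Finset.sum_insert ha]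
      refine ⟨inferInstance, ?_⟩
      exact (Submodule.finrank_add_le_finrank_add_finrank _ _).trans (by omega)
  have h := (key Finset.univ).2
  rwa [Finset.sup_univ_eq_iSup] at h

/-- relative complements -/
theorem exists_relative_compl {A B : Submodule K V} [FiniteDimensional K B] (h : A ≤ B) :
    ∃ C : Submodule K V, C ≤ B ∧ A ⊔ C = B ∧ finrank K A + finrank K C = finrank K B := by
  obtain ⟨C', hC'⟩ := Submodule.exists_isCompl A
  have : FiniteDimensional K A := Submodule.finiteDimensional_of_le h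
  have : FiniteDimensional K (C' ⊓ B : Submodule K V) :=
    Submodule.finiteDimensional_of_le inf_le_right
  have hsup : A ⊔ C' ⊓ B = B := by
    rw [← sup_inf_assoc_of_le C' h, hC'.sup_eq_top, top_inf_eq]
  refine ⟨C' ⊓ B, inf_le_right, hsup, ?_⟩
  have h1 := Submodule.finrank_sup_add_finrank_inf_eq A (C' ⊓ B)
  rw [hsup, ← inf_assoc, hC'.inf_eq_bot, bot_inf_eq, finrank_bot] at h1
  omega

end general

section alg

variable {K : Type u} [Field K] {X : Type}

theorem mem_suppSub {T : Set (FreeGroup X)} {ρ : GA K X} : ρ ∈ suppSub (K := K) T ↔ SuppIn T ρ :=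
  Iff.rfl

theorem suppIn_mul_of (T : Set (FreeGroup X)) (ρ : GA K X) (x : X) :
    SuppIn T (ρ * el K (FreeGroup.of x)) ↔ SuppIn {τ | τ * FreeGroup.of x ∈ T} ρ := by
  constructor
  · intro h g hg
    apply h
    rw [coeff_mul_single_apply]
    simpa using hg
  · intro h g hg
    rw [coeff_mul_single_apply] at hg
    have := h (g * (FreeGroup.of x)⁻¹) (by simpa using hg)
    simpa using this

theorem suppSub_eq_span (T : Set (FreeGroup X)) :
    suppSub (K := K) T = Submodule.span K ((fun g => el K g) '' T) := by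
  ext ρ
  have h := (MonoidAlgebra.basis (FreeGroup X) K).mem_span_image (m := ρ) (s := T)
  have h2 : (⇑(MonoidAlgebra.basis (FreeGroup X) K) : FreeGroup X → GA K X) =
      fun g => el K g := by
    funext g
    exact MonoidAlgebra.basis_apply K g
  rw [h2] at h
  rw [h, mem_suppSub]
  constructor
  · intro h g hg
    exact h g (Finsupp.mem_support_iff.1 hg)
  · intro h g hg
    exact h (Finsupp.mem_support_iff.2 hg)

theorem el_mem_suppSub {T : Set (FreeGroup X)} {g : FreeGroup X} (hg : g ∈ T) :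
    el K g ∈ suppSub (K := K) T := by
  rw [suppSub_eq_span]
  exact Submodule.subset_span ⟨g, hg, rfl⟩

theorem finrank_suppSub (T : Finset (FreeGroup X)) :
    finrank K (suppSub (K := K) (T : Set (FreeGroup X))) = T.card := by
  rw [suppSub_eq_span, Set.image_eq_range]
  have h := (MonoidAlgebra.basis (FreeGroup X) K).linearIndependent
  have h2 : LinearIndependent K (fun g : (T : Set (FreeGroup X)) => el K (g : FreeGroup X)) := by
    have h3 := h.comp (fun g : (T : Set (FreeGroup X)) => (g : FreeGroup X))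
      (fun a b hab => Subtype.ext hab)
    have h4 : (⇑(MonoidAlgebra.basis (FreeGroup X) K) ∘ fun g : (T : Set (FreeGroup X)) =>
        (g : FreeGroup X)) = fun g : (T : Set (FreeGroup X)) => el K (g : FreeGroup X) := by
      funext g
      exact MonoidAlgebra.basis_apply K _
    rwa [h4] at h3
  rw [finrank_span_eq_card h2]
  simp

instance finiteDimensional_suppSub (T : Finset (FreeGroup X)) :
    FiniteDimensional K (suppSub (K := K) (T : Set (FreeGroup X))) := by
  rw [suppSub_eq_span]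
  exact FiniteDimensional.span_of_finite K ((Finset.finite_toSet T).image _)

/-- The smallest shift-closed subspace containing given elements. -/
theorem exists_R [Fintype X] [DecidableEq (FreeGroup X)] {m : ℕ} (fs : Fin m → GA K X)
    (T : Finset (FreeGroup X)) (hfs : ∀ i, fs i ∈ suppSub (K := K) (T : Set (FreeGroup X)))
    (J : Submodule K (GA K X)) (hfJ : ∀ i, fs i ∈ J)
    (hJx : ∀ x ρ, ρ ∈ J ↔ ρ * el K (FreeGroup.of x) ∈ J) (h1J : (1 : GA K X) ∉ J) :
    ∃ R : Submodule K (GA K X), R ≤ suppSub (K := K) (T : Set (FreeGroup X)) ∧ (∀ i, fs i ∈ R) ∧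
      (∀ x ρ, ρ ∈ suppSub (K := K) (T : Set (FreeGroup X)) →
        ρ * el K (FreeGroup.of x) ∈ suppSub (K := K) (T : Set (FreeGroup X)) →
        (ρ ∈ R ↔ ρ * el K (FreeGroup.of x) ∈ R)) ∧ (1 : GA K X) ∉ R ∧
      finrank K R ≤ m + ∑ x, finrank K (R ⊓ suppSub (K := K)
        ((T.filter fun τ => τ * FreeGroup.of x ∈ T : Finset (FreeGroup X)) :
          Set (FreeGroup X)) : Submodule K (GA K X)) := by
  set W := suppSub (K := K) (T : Set (FreeGroup X)) with hW
  set 𝒮 : Set (Submodule K (GA K X)) := {S | S ≤ W ∧ (∀ i, fs i ∈ S) ∧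
    ∀ x ρ, ρ ∈ W → ρ * el K (FreeGroup.of x) ∈ W → (ρ ∈ S ↔ ρ * el K (FreeGroup.of x) ∈ S)} with h𝒮
  set R := sInf 𝒮 with hR
  have hWS : W ∈ 𝒮 := ⟨le_rfl, hfs, fun x ρ h1 h2 => iff_of_true h1 h2⟩
  have hJS : J ⊓ W ∈ 𝒮 := ⟨inf_le_right, fun i => ⟨hfJ i, hfs i⟩, fun x ρ h1 h2 =>
    ⟨fun h => ⟨(hJx x ρ).1 h.1, h2⟩, fun h => ⟨(hJx x ρ).2 h.1, h1⟩⟩⟩
  have hRW : R ≤ W := sInf_le hWS
  have hfR : ∀ i, fs i ∈ R := by
    intro i
    rw [hR, Submodule.mem_sInf]
    intro S hS
    exact hS.2.1 i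
  have hRx : ∀ x ρ, ρ ∈ W → ρ * el K (FreeGroup.of x) ∈ W →
      (ρ ∈ R ↔ ρ * el K (FreeGroup.of x) ∈ R) := by
    intro x ρ h1 h2
    rw [hR, Submodule.mem_sInf, Submodule.mem_sInf]
    exact ⟨fun h S hS => (hS.2.2 x ρ h1 h2).1 (h S hS), fun h S hS => (hS.2.2 x ρ h1 h2).2 (h S hS)⟩
  have h1R : (1 : GA K X) ∉ R := fun h => h1J ((sInf_le hJS : R ≤ J ⊓ W) h).1
  refine ⟨R, hRW, hfR, hRx, h1R, ?_⟩
  set E : X → Finset (FreeGroup X) := fun x => T.filter fun τ => τ * FreeGroup.of x ∈ T with hE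
  have hEmem : ∀ x ρ, ρ ∈ suppSub (K := K) (E x : Set (FreeGroup X)) ↔
      ρ ∈ W ∧ ρ * el K (FreeGroup.of x) ∈ W := by
    intro x ρ
    rw [hW, mem_suppSub, mem_suppSub, mem_suppSub, suppIn_mul_of]
    constructor
    · intro h
      refine ⟨fun g hg => ?_, fun g hg => ?_⟩
      · exact (Finset.mem_filter.1 (h g hg)).1
      · exact (Finset.mem_filter.1 (h g hg)).2
    · rintro ⟨h1, h2⟩ g hg
      exact Finset.mem_coe.2 (Finset.mem_filter.2 ⟨h1 g hg, h2 g hg⟩)
  set δ : X → GA K X →ₗ[K] GA K X := fun x =>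
    LinearMap.mulRight K (el K (FreeGroup.of x)) - LinearMap.id with hδ
  set R' : Submodule K (GA K X) := Submodule.span K (Set.range fs) ⊔
    ⨆ x, (R ⊓ suppSub (K := K) (E x : Set (FreeGroup X))).map (δ x) with hR'
  have hR'R : R' ≤ R := by
    refine sup_le ?_ (iSup_le fun x => ?_)
    · rw [Submodule.span_le]
      rintro _ ⟨i, rfl⟩
      exact hfR i
    · rintro _ ⟨ρ, ⟨h1, h2⟩, rfl⟩
      have h3 := (hEmem x ρ).1 h2
      have h4 := (hRx x ρ h3.1 h3.2).1 h1
      exact sub_mem h4 h1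
  have hδmem : ∀ x ρ, ρ ∈ R → ρ ∈ W → ρ * el K (FreeGroup.of x) ∈ W →
      ρ * el K (FreeGroup.of x) - ρ ∈ R' := by
    intro x ρ h1 h2 h3
    refine Submodule.mem_sup_right (Submodule.mem_iSup_of_mem x ⟨ρ, ⟨h1, (hEmem x ρ).2 ⟨h2, h3⟩⟩, rfl⟩)
  have hR'S : R' ∈ 𝒮 := by
    refine ⟨hR'R.trans hRW, fun i => Submodule.mem_sup_left (Submodule.subset_span ⟨i, rfl⟩), ?_⟩
    intro x ρ h1 h2
    constructor
    · intro h
      have := add_mem (hδmem x ρ (hR'R h) h1 h2) h
      simpa using this
    · intro h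
      have h3 : ρ ∈ R := (hRx x ρ h1 h2).2 (hR'R h)
      have := sub_mem h (hδmem x ρ h3 h1 h2)
      simpa using this
  have hRR' : R = R' := le_antisymm (sInf_le hR'S) hR'R
  have : ∀ x, FiniteDimensional K (R ⊓ suppSub (K := K) (E x : Set (FreeGroup X)) :
      Submodule K (GA K X)) := fun x => Submodule.finiteDimensional_of_le inf_le_right
  have : FiniteDimensional K (Submodule.span K (Set.range fs)) :=
    FiniteDimensional.span_of_finite K (Set.finite_range fs)
  calc finrank K R = finrank K R' := by rw [← hRR']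
    _ ≤ finrank K (Submodule.span K (Set.range fs)) + finrank K
        (⨆ x, (R ⊓ suppSub (K := K) (E x : Set (FreeGroup X))).map (δ x) :
          Submodule K (GA K X)) := Submodule.finrank_add_le_finrank_add_finrank _ _
    _ ≤ m + ∑ x, finrank K ((R ⊓ suppSub (K := K) (E x : Set (FreeGroup X))).map (δ x)) := by
        refine add_le_add ?_ (finrank_iSup_le _)
        have := finrank_range_le_card (R := K) fs
        rwa [Fintype.card_fin] at this
    _ ≤ m + ∑ x, finrank K (R ⊓ suppSub (K := K) (E x : Set (FreeGroup X)) :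
        Submodule K (GA K X)) := by
        gcongr with x
        exact Submodule.finrank_map_le _ _

end alg

end Pool.Agent.Helper91.QP
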